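import Pool.Agent.Results.MP_c865f9_co.UnequalParts
import Pool.Agent.K9h99.SQ.Three

/-!
# Sequential labelings of `mK_{s,t}`: everything except `2K_{p,p}` for odd primes `p`

The definitions (`mK m s t`, `edgeLabel`, `Sequential`) are those of the starting file
`UnequalParts`. That file settles `m = 1`, the unequal parts, the equal parts of composite size and
`K_{1,1}`, `K_{2,2}`. Here the copies of `K_{p,p}`, `p` an odd prime, are shown to be sequential if there are
at least three of them (`mK_{s,s}` is sequential for all `m ≥ 3`, `s ≥ 3`), which leaves only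
`2K_{p,p}`.

Construction (`Pool/Agent/K9h99/SQ/Three.lean`), `M = m - 1`, `c = M (s + 1) + 2 s - 2`: the copy `r`,
`0 ≤ r ≤ M`, has on one side the labels `a r + [0, s)` and on the other side the labels
`c - a r + s j`, `j ∈ J r`, where `J 0, ..., J M` is a partition of `[0, m s)` into sets of size `s`; so
the edge labels are the numbers `c + s j + i`, `j ∈ [0, m s)`, `i ∈ [0, s)`, each once. The intervals
`a r + [0, s)` with `a 0 = s - 2`, `a r = r (s + 1) + 2 s - 2` lie close together near `0`, with a gap which
contains the label `2 s + 1` of the copy `M - 1`; `0` is a label of the copy `M`; all other labels of the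
second sides lie above the intervals, and `c - a r ≡ - r - 1` or so modulo `s` keeps them apart.
-/

set_option autoImplicit false

namespace Pool.Agent.Results.MP_c865f9_co.AllButTwoCopies

open Pool.Agent.Results.MP_c865f9_co.UnequalParts

theorem equal_parts (m s : ℕ) (hm : 3 ≤ m) (hs : 3 ≤ s) : Sequential (mK m s s) := by
  obtain ⟨M, rfl⟩ : ∃ M, m = M + 1 := ⟨m - 1, by omega⟩
  exact seq_of_core (M + 1) s s (Pool.Agent.K9h99.SQ.construct M s (by omega) hs)

/-- **All triples except `(2, p, p)` with an odd prime `p`.** -/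
theorem result (m s t : ℕ) (hm : 1 ≤ m) (hs : 1 ≤ s) (ht : 1 ≤ t)
    (hne : ¬ (m = 2 ∧ s = t ∧ s.Prime ∧ 3 ≤ s)) :
    Sequential (mK m s t) ↔
      (m = 1 ∧ (s = 1 ∨ t = 1)) ∨
      (2 ≤ m ∧ 2 ≤ s ∧ 2 ≤ t ∧ ¬ (s = 2 ∧ t = 2) ∧
        ¬ (m = 2 ∧ s = 2 ∧ t = 3) ∧ ¬ (m = 2 ∧ s = 3 ∧ t = 2)) := by
  obtain ⟨h1, h2, h3, h4⟩ := Pool.Agent.Results.MP_c865f9_co.UnequalParts.result
  rcases Nat.lt_or_ge m 2 with hm2 | hm2
  · obtain rfl : m = 1 := by omega
    rw [h1 s t hs ht]
    constructor
    · exact fun h => Or.inl ⟨rfl, h⟩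
    · rintro (⟨-, h⟩ | ⟨h, -⟩)
      · exact h
      · omega
  · by_cases hst : s = t
    · subst hst
      rcases Nat.lt_or_ge s 3 with hs3 | hs3
      · rcases Nat.lt_or_ge s 2 with hs2 | hs2
        · obtain rfl : s = 1 := by omega
          constructor
          · exact fun h => absurd h (h3 m hm2).1
          · rintro (⟨h, -⟩ | ⟨-, h, -⟩) <;> omega
        · obtain rfl : s = 2 := by omega
          constructor
          · exact fun h => absurd h (h3 m hm2).2
          · rintro (⟨h, -⟩ | ⟨-, -, -, h, -⟩)
            · omega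
            · exact absurd ⟨rfl, rfl⟩ h
      · constructor
        · intro _
          right
          refine ⟨hm2, by omega, by omega, fun h => by omega, fun h => by omega, fun h => by omega⟩
        · intro _
          rcases Nat.lt_or_ge m 3 with hm3 | hm3
          · have hp : ¬ s.Prime := fun hp => hne ⟨by omega, rfl, hp, hs3⟩
            exact h4 m s hm2 (by omega) hp
          · exact equal_parts m s hm3 hs3
    · rw [h2 m s t hm2 hs ht hst]
      constructor
      · rintro ⟨a, b, c, d⟩
        exact Or.inr ⟨hm2, a, b, fun h => hst (by omega), c, d⟩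
      · rintro (⟨h, -⟩ | ⟨-, a, b, -, c, d⟩)
        · omega
        · exact ⟨a, b, c, d⟩

end Pool.Agent.Results.MP_c865f9_co.AllButTwoCopies
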